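import Pool.Agent.Q62.TTD.Final

/-!
# No gap between the topological transcendence degree and the topological generating degree above
`ℵ₁`

Negative answer to Q1: no extension `K/k` of analytic fields satisfies
`ℵ₁ ≤ topdeg(K/k) < Topdeg(K/k)`.  More precisely `Topdeg(K/k) ≤ topdeg(K/k)` as soon as
`Topdeg(K/k) > ℵ₁`.

An analytic field is a complete ultrametric `NormedField` (the trivial absolute value is allowed:
it is the `NormedField` with `‖x‖ = 1` for all `x ≠ 0`).  `Ka` is an algebraic closure of `K` whose
norm is multiplicative and extends that of `K`, and `\widehat{K^a}` is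
`UniformSpace.Completion Ka`.
-/

set_option autoImplicit false

universe u v

open Cardinal UniformSpace Pool.Agent.Q62.TTD

namespace Pool.Agent.Results.MP_769310_ag.NoGap

theorem result (k : Type v) (K Ka : Type u)
    [NormedField k] [IsUltrametricDist k] [CompleteSpace k]
    [NormedField K] [IsUltrametricDist K] [CompleteSpace K] [NormedAlgebra k K]
    [NormedField Ka] [NormedAlgebra K Ka] [IsAlgClosure K Ka]
    [NormedAlgebra k Ka] [IsScalarTower k K Ka] :
    ¬ (ℵ₁ ≤ topdeg k K (Completion Ka) ∧
        topdeg k K (Completion Ka) < Topdeg k K (Completion Ka)) ∧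
    (ℵ₁ < Topdeg k K (Completion Ka) →
        Topdeg k K (Completion Ka) ≤ topdeg k K (Completion Ka)) :=
  ⟨fun h => absurd (gap k (h.1.trans_lt h.2)) (not_le.2 h.2), gap k⟩

end Pool.Agent.Results.MP_769310_ag.NoGap
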